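import Pool.Agent.H45.NS.B15

/-!
The numbers of the scales with small and with large scaled dissipation around a singular point of a
solution of the Navier-Stokes equations.
-/

set_option autoImplicit false

open MeasureTheory Set Metric
open scoped ContDiff

namespace Pool.Agent.Results.MP_6bf1e5_an.WindowsOfBadScales

open H459R3.NS W221.NS Pool.Agent.Y8 Pool.Agent.H45.NS

/-- For every `η > 0` there are `ε, c, K > 0` with `ε² ≤ c` such that for every suitable weak periodic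
solution on `(0, T)` and for every smooth periodic solution on `[0, T)`, for every point `(t, x)`,
`0 < t ≤ T`, every window `k ≤ n` of dyadic scales with `2 · 4⁻ᵏ < ν t` and every `δ ≤ ε`: if
`∫ |u(s)|²` over the ball of radius `4 · 2⁻ᵏ` around `x` is at most `A ν² 2⁻ᵏ` for the times `s` with
`0 < ν (t - s) < 4⁻ᵏ`, then either `(t, x)` is not singular and `|u| ≤ K ν 2ⁿ / δ` in a backward
cylinder of the size `δ 2⁻ⁿ`, or the number of the scales in the window with scaled dissipation at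
most `δ ν`, times `2 - η`, is at most the number of the scales with scaled dissipation more than
`(c / δ) ν` plus `(log₂ (A δ²) + K)⁺`. -/
theorem result (η : ℝ) (hη : 0 < η) : ∃ ε c K : ℝ, 0 < ε ∧ ε ^ 2 ≤ c ∧ 0 < K ∧
    ∀ (ν T : ℝ) (G : Set ℝ) (u : ℝ → V → V) (p : ℝ → V → ℝ), 0 < ν → WeakOrSmooth ν T G u p →
      ∀ (t : ℝ) (x : V) (k n : ℕ), 0 < t → t ≤ T → k ≤ n → 2 * (1 / 4) ^ k < ν * t →
        ∀ A : ℝ, 1 ≤ A → (∀ s ∈ G, s < t → ν * (t - s) < (1 / 4) ^ k →
          ∫ y in ball x (4 * (1 / 2) ^ k), ∑ i, u s y i ^ 2 ≤ A * ν ^ 2 * (1 / 2) ^ k) →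
        ∀ δ : ℝ, 0 < δ → δ ≤ ε →
          (¬ SingPt G u t x ∧ ∀ s ∈ G, s < t → K * ν * (t - s) * 4 ^ n < δ ^ 2 →
            ∀ y, K * ‖y - x‖ * 2 ^ n < δ → ‖u s y‖ ≤ K * ν * 2 ^ n / δ) ∨
          (2 - η) * ((GoodSc δ ν G u t x k n).ncard : ℝ)
            ≤ ((BadSc (c / δ) ν G u t x k n).ncard : ℝ) + max 0 (Real.logb 2 (A * δ ^ 2) + K) := by
  obtain ⟨ε, c, K, hε, hεc, hK, h⟩ := qsrGF (min η 1) (by positivity) (min_le_right _ _)
  refine ⟨ε, c, K, hε, hεc, hK, ?_⟩
  intro ν T G u p hν hN t x k n ht0 htT hkn hkt A hA1 hA δ hδ hδε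
  have e4 : rr k ^ 2 = (1 / 4) ^ k := by
    unfold rr
    rw [← pow_mul, mul_comm, pow_mul]
    norm_num
  rcases h ν T G u p hν hN t x k n ht0 htT hkn (by rw [e4]; exact hkt) A hA1 (by
    intro s hs hst hs2
    rw [e4] at hs2
    have h1 := hA s hs hst hs2
    unfold A2 nsq
    have e5 : rr k * 4 = 4 * (1 / 2) ^ k := by
      unfold rr
      ring
    rw [e5]
    exact h1) δ hδ hδε with h1 | h1
  · exact Or.inl h1
  · right
    refine le_trans ?_ h1
    have h2 : (0 : ℝ) ≤ ((GoodSc δ ν G u t x k n).ncard : ℝ) := Nat.cast_nonneg _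
    exact mul_le_mul_of_nonneg_right (by linarith [min_le_left η 1]) h2

end Pool.Agent.Results.MP_6bf1e5_an.WindowsOfBadScales
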